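import Pool.Agent.N748.MJ.Stm

set_option autoImplicit false

/-! Project PL, job RJM (helper3): real joint moments, core (the small lemmas on real exponents are copied from
`N748/MJ/SM.lean`) -/

namespace Pool.Agent.V5helper3.PL

open Finset Filter MeasureTheory Topology Complex
open Pool.Agent.N748.MG Pool.Agent.N748.MJ

/-- real exponents -/
noncomputable def cc {m : ℕ} (k : Fin m → ℝ) : Fin m → ℂ := fun j => (k j : ℂ)

/-- the real part of the logarithm of the main term -/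
noncomputable def Lr {m : ℕ} (k h : Fin m → ℝ) (δ : ℝ) : ℝ :=
  ∑ j, ∑ l, k j * k l * (LZ (1 + 2 * δ) (h j - h l)).re

lemma LM_re {m : ℕ} (k h : Fin m → ℝ) (δ : ℝ) : (LM (cc k) (cc k) h δ).re = Lr k h δ := by
  unfold LM Lr cc
  rw [Complex.re_sum]
  refine Finset.sum_congr rfl fun j _ => ?_
  rw [Complex.re_sum]
  refine Finset.sum_congr rfl fun l _ => ?_
  rw [← Complex.ofReal_mul, Complex.re_ofReal_mul]

/-- the product -/
noncomputable def G {m : ℕ} (k h : Fin m → ℝ) (δ t : ℝ) : ℝ := ∏ j, mz δ (t + h j) ^ (2 * k j)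

lemma G_nn {m : ℕ} (k h : Fin m → ℝ) (δ t : ℝ) : 0 ≤ G k h δ t :=
  Finset.prod_nonneg fun j _ => Real.rpow_nonneg (norm_nonneg _) _

lemma prod_ZZ {m : ℕ} (k h : Fin m → ℝ) (δ t : ℝ) :
    ∏ j, ZZ (riemannZeta (pw δ (t + h j))) (cc k j) ((fun _ => 0 : Fin m → ℤ) j) =
      ((G k h δ t : ℝ) : ℂ) := by
  unfold G
  rw [Complex.ofReal_prod]
  refine Finset.prod_congr rfl fun _ _ => ?_
  unfold ZZ cc mz
  rw [zpow_zero, mul_one, Complex.ofReal_cpow (norm_nonneg _)]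
  push_cast
  rfl

lemma sp_zero {m : ℕ} (b : Fin m → ℂ) : sp b (fun _ => 0) = b := by
  funext j
  simp [sp]

lemma sm_zero {m : ℕ} (b : Fin m → ℂ) : sm b (fun _ => 0) = b := by
  funext j
  simp [sm]

/-- the real form of (JM) -/
lemma real_form {m : ℕ} {k h : Fin m → ℝ} {δ T a ε : ℝ} {N : Set ℝ} (hT : 0 < T) (ha : 0 ≤ a)
    (haV : aV (cc k) (cc k) h = a)
    (H : ‖Complex.exp (-(LM (sp (cc k) (fun _ => 0)) (sm (cc k) (fun _ => 0)) h δ)) *
      (∫ t in N, ∏ j, ZZ (riemannZeta (pw δ (t + h j))) (cc k j) ((fun _ => 0 : Fin m → ℤ) j)) -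
      T * aV (sp (cc k) (fun _ => 0)) (sm (cc k) (fun _ => 0)) h‖ ≤ ε * T) :
    |Real.exp (-(Lr k h δ)) * (∫ t in N, G k h δ t) - T * a| ≤ ε * T := by
  rw [sp_zero, sm_zero, haV] at H
  simp_rw [prod_ZZ] at H
  rw [integral_complex_ofReal] at H
  have h1 := abs_norm_sub_norm_le (Complex.exp (-(LM (cc k) (cc k) h δ)) *
    ((∫ t in N, G k h δ t : ℝ) : ℂ)) ((T : ℂ) * (a : ℂ))
  have hI : 0 ≤ ∫ t in N, G k h δ t := integral_nonneg fun t => G_nn k h δ t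
  rw [norm_mul, norm_mul, Complex.norm_exp, Complex.norm_real, Complex.norm_real, Complex.norm_real,
    Real.norm_of_nonneg hI, Real.norm_of_nonneg hT.le, Real.norm_of_nonneg ha, Complex.neg_re,
    LM_re] at h1
  exact h1.trans H

/-- the main term -/
lemma exp_Lr (hL : S_LZB) {m : ℕ} (k h : Fin m → ℝ) {δ : ℝ} (h0 : 0 < δ) (h1 : δ ≤ 1 / 16) :
    Real.exp (Lr k h δ) =
      ∏ j, ∏ l, ‖riemannZeta (((1 + 2 * δ : ℝ) : ℂ) + ((h j - h l : ℝ) : ℂ) * I)‖ ^ (k j * k l) := by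
  unfold Lr
  rw [Real.exp_sum]
  refine Finset.prod_congr rfl fun j _ => ?_
  rw [Real.exp_sum]
  refine Finset.prod_congr rfl fun l _ => ?_
  rw [← (hL δ h0 h1 (h j - h l)).2, Complex.norm_exp, ← Real.exp_mul, mul_comm]

theorem rjm (hJ : S_JM) (hP : S_POSV) (hL : S_LZB) :
    ∀ (m : ℕ) (R D : ℝ), 0 < R → 0 < D → ∃ C : ℝ, 0 < C ∧ Ev fun X δ =>
    ∀ h : Fin m → ℝ, (∀ j, |h j| ≤ X ^ ((1:ℝ) / 2)) →
    ∃ N : Set ℝ, MeasurableSet N ∧ N ⊆ Set.Icc 0 X ∧ volume (Set.Icc 0 X \ N) ≤ ENNReal.ofReal (δ ^ D * X) ∧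
      (∀ t ∈ N, ∀ j, 0 < mz δ (t + h j)) ∧
      ∀ k : Fin m → ℝ, (∀ j, |k j| ≤ R) → IntegrableOn (fun t => ∏ j, mz δ (t + h j) ^ (2 * k j)) N ∧
        ∫ t in N, ∏ j, mz δ (t + h j) ^ (2 * k j) ≤ C * X *
          ∏ j, ∏ l, ‖riemannZeta (((1 + 2 * δ : ℝ) : ℂ) + ((h j - h l : ℝ) : ℂ) * I)‖ ^ (k j * k l) := by
  intro m R D hR hD
  obtain ⟨c, C₀, hc, hC₀, hcC⟩ := hP m R hR.le
  refine ⟨C₀ + c / 2, by positivity, ?_⟩
  obtain ⟨lam, δ0, hlam, hδ0, hδ1, hev⟩ := hJ m R D hR hD (c / 2) (by positivity)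
  refine ⟨lam, δ0, hlam, hδ0, hδ1, ?_⟩
  filter_upwards [hev, eventually_gt_atTop (0:ℝ)] with X hX hX0
  intro δ h0 h1 h2 h hh
  obtain ⟨N, hN1, hN2, hN3, hN4, hN5⟩ := hX δ h0 h1 h2 h hh
  refine ⟨N, hN1, hN2, hN3, fun t ht j => norm_pos_iff.mpr (hN4 t ht j), fun k hk => ?_⟩
  obtain ⟨a, hca, haV⟩ := (hcC h).2 k hk
  have ha0 : 0 < a := lt_of_lt_of_le hc hca
  have hkn : ∀ j, ‖cc k j‖ ≤ R := fun j => by
    unfold cc
    rw [Complex.norm_real]
    exact hk j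
  have haC : a ≤ C₀ := by
    have := (hcC h).1 (cc k) (cc k) hkn hkn
    unfold cc at this
    rw [haV, Complex.norm_real, Real.norm_of_nonneg ha0.le] at this
    exact this
  have hform := real_form (k := k) (h := h) (δ := δ) (T := X) (a := a) (ε := c / 2) (N := N) hX0 ha0.le haV
    (hN5 (cc k) (fun _ => 0) hkn (fun j => by simpa using hR.le))
  change IntegrableOn (G k h δ) N ∧ (∫ t in N, G k h δ t) ≤ _
  constructor
  · by_contra hni
    have h3 : ∫ t in N, G k h δ t = 0 := integral_undef hni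
    rw [h3, mul_zero, zero_sub, abs_neg, abs_of_nonneg (by positivity)] at hform
    nlinarith
  · rw [← exp_Lr hL k h h0 (h1.trans hδ1)]
    have h3 := (abs_le.mp hform).2
    have h4 : Real.exp (-(Lr k h δ)) * (∫ t in N, G k h δ t) ≤ (C₀ + c / 2) * X := by nlinarith
    have h5 : (∫ t in N, G k h δ t) =
        Real.exp (Lr k h δ) * (Real.exp (-(Lr k h δ)) * ∫ t in N, G k h δ t) := by
      rw [← mul_assoc, ← Real.exp_add, add_neg_cancel, Real.exp_zero, one_mul]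
    rw [h5, mul_comm]
    exact mul_le_mul_of_nonneg_right h4 (Real.exp_pos _).le

end Pool.Agent.V5helper3.PL
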