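import Pool.Agent.H379R2.SW2

set_option autoImplicit false

/-! Project PL, job ZB2 (helper3): zeta to the right of the line `1` at large heights, core -/

namespace Pool.Agent.V5helper3.PL

open Complex

theorem zb2 : ∀ D : ℝ, 0 < D → ∃ C δ0 : ℝ, 0 < C ∧ 0 < δ0 ∧ ∀ δ : ℝ, 0 < δ → δ ≤ δ0 → ∀ x : ℝ, 1 ≤ |x| →
    |x| ≤ δ ^ (-D) → ‖riemannZeta (((1 + 2 * δ : ℝ) : ℂ) + (x : ℂ) * I)‖ ≤ C * Real.log (1 / δ) := by
  intro D hD
  set E : ℝ := Real.exp (2 * (D + 1)) with hE
  have hE0 : 0 < E := Real.exp_pos _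
  refine ⟨2 + 10 * E, Real.exp (-2), by positivity, Real.exp_pos _, ?_⟩
  intro δ h0 h1 x hx1 hx2
  have hl : 2 ≤ Real.log (1 / δ) := by
    rw [one_div, Real.log_inv]
    have := Real.log_le_log h0 h1
    rw [Real.log_exp] at this
    linarith
  set l := Real.log (1 / δ) with hldef
  have hl0 : 0 < l := by linarith
  have h5 : δ ≤ 1 / 5 := by
    have h6 : Real.exp (-2) ≤ 1 / 5 := by
      rw [Real.exp_neg, ← one_div]
      apply one_div_le_one_div_of_le (by norm_num)
      have := Real.exp_one_gt_d9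
      have h7 : Real.exp 2 = Real.exp 1 * Real.exp 1 := by rw [← Real.exp_add]; norm_num
      rw [h7]
      nlinarith
    exact h1.trans h6
  set s : ℂ := ((1 + 2 * δ : ℝ) : ℂ) + (x : ℂ) * I with hs
  have hre : s.re = 1 + 2 * δ := by simp [hs]
  have hs1 : s - 1 = ((2 * δ : ℝ) : ℂ) + (x : ℂ) * I := by
    rw [hs]
    push_cast
    ring
  have him : |x| ≤ ‖s - 1‖ := by
    have := abs_im_le_norm (s - 1)
    rw [hs1] at this ⊢
    simpa using this
  have hns : ‖s‖ ≤ 1 + 2 * δ + |x| := by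
    rw [hs]
    refine (norm_add_le _ _).trans ?_
    rw [Complex.norm_real, norm_mul, Complex.norm_real, Complex.norm_I, mul_one,
      Real.norm_of_nonneg (by positivity), Real.norm_eq_abs]
  have hP : 1 ≤ δ ^ (-D) := hx1.trans hx2
  have hN : ‖s‖ + 2 ≤ δ ^ (-(D + 1)) := by
    have h6 : δ ^ (-(D + 1)) = δ ^ (-D) * (1 / δ) := by
      rw [show -(D + 1) = -D + -1 by ring, Real.rpow_add h0, Real.rpow_neg_one, one_div]
    have h7 : 5 ≤ 1 / δ := by
      rw [le_div_iff₀ h0]
      linarith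
    rw [h6]
    nlinarith
  have hη : 0 < 1 / l := by positivity
  have hre1 : 1 < s.re := by
    rw [hre]
    linarith
  have key := Pool.Agent.H379R2.SW.zeta_norm_le hre1 hN hη
  have h8 : (δ ^ (-(D + 1))) ^ (2 * (1 / l)) = E := by
    rw [← Real.rpow_mul h0.le, Real.rpow_def_of_pos h0, hE]
    congr 1
    have h9 : Real.log δ = -l := by
      rw [hldef, one_div, Real.log_inv, neg_neg]
    rw [h9]
    field_simp
  rw [h8, one_div_one_div] at key
  have h10 : 2 / ‖s - 1‖ ≤ 2 := by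
    rw [div_le_iff₀ (by linarith)]
    linarith
  refine key.trans ?_
  nlinarith

end Pool.Agent.V5helper3.PL
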