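import Pool.Agent.V5helper51.PL.Stm
import Pool.Agent.V5helper3.PL.RJMc
import Pool.Agent.V5helper3.PL.ZB2c

set_option autoImplicit false

/-! Project PL, jobs RJM and ZB2 (helper3) -/

namespace Pool.Agent.V5helper3.PL

open Pool.Agent.N748.MG Pool.Agent.N748.MJ Pool.Agent.V5helper51.PL

theorem t_RJM (hJ : S_JM) (hP : S_POSV) (hL : S_LZB) : S_RJM := rjm hJ hP hL

theorem t_ZB2 : S_ZB2 := zb2

end Pool.Agent.V5helper3.PL
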